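import Pool.Agent.Lib.KCN.PM2
import Pool.Agent.Lib.KCN.CIC2
import Pool.Agent.Lib.KCN.AVG3
import Pool.Agent.Lib.KCN.EUP
import Pool.Agent.Lib.KCN.CUPD
import Pool.Agent.Lib.KCN.EIA
import Pool.Agent.Lib.KCN.CIA

/-!
# MP_678664_lc: certifying that a graph has no `k`-clique with bounded memory

Model (`Pool/Agent/Lib/KCN/EProofs.lean`): a circuit (and-or graph, cycles allowed)
`C : Fin N → EGate n N` has `N` gates, each an input `a, b are not adjacent` or
`a, b are adjacent`, or the disjunction or the conjunction of two gates.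
`EProof C G g T P D E`: a proof tree of the gate `g` for the graph `G` with `T` leaves, set `P` of
occurring gates, at most `D` conjunctions on a path, set `E` of the pairs read as edges.
`ESound k C g`: the gate `g` has no proof for a graph with a `k`-clique. The memory of the search
is `log₂ N` bits, of any meaning.

(1) Memory `n ^ (2 - γ)`: one set `S` of graphs without a clique of size `ε k` and one set `K` of
graphs with a `k`-clique, such that every circuit fails on almost all of `S`, at every gate which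
is right on an `n ^ (-β)` fraction of `K`, unless the proof reads more than `n ^ (2 - γ)` edges.
(2) This memory suffices for `n ^ (γ k)` leaves, without reading edges.
(3) Memory `s` up to `n`: complete `(u - 1)`-partite graphs.
-/

namespace Pool.Agent.Results.MP_678664_lc.BoundedMemory

open Pool.Agent.KCN

open Classical in
theorem result :
    (∀ γ ε : ℝ, 0 < γ → 0 < ε → ∃ c β : ℝ, 0 < c ∧ 0 < β ∧ ∃ k₀ : ℕ, ∀ k : ℕ, k₀ ≤ k →
      ∃ n₀ : ℕ, ∀ n : ℕ, n₀ ≤ n →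
      ∃ S K : Finset (SimpleGraph (Fin n)), S.Nonempty ∧ K.Nonempty ∧
        (∀ G ∈ S, ∀ u : ℕ, ε * k ≤ u → G.CliqueFree u) ∧ (∀ H ∈ K, ¬ H.CliqueFree k) ∧
        ∀ N : ℕ, (N : ℝ) ≤ 2 ^ ((n : ℝ) ^ (2 - γ)) → ∀ C : Fin N → EGate n N,
          ∃ B ⊆ S, (2 : ℝ) ^ ((n : ℝ) ^ (2 - γ)) * (B.card : ℝ) ≤ S.card ∧
            ∀ G ∈ S, G ∉ B → ∀ out : Fin N, (K.card : ℝ) ≤ (n : ℝ) ^ β *
                (K.filter (fun H => ∀ H' : SimpleGraph (Fin n), H ≤ H' →
                  ∀ T P D E, ¬ EProof C H' out T P D E)).card →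
              ∀ (T : ℕ) (P : Finset (Fin N)) (D : ℕ) (E : Finset (Fin n × Fin n)),
                EProof C G out T P D E → (E.card : ℝ) ≤ (n : ℝ) ^ (2 - γ) →
                (n : ℝ) ^ (c * k) ≤ T ∧
                c * (k * Real.logb 2 n) ^ 2 ≤
                  (D + k * Real.logb 2 n) * Real.logb 2 ((P.card : ℝ) + 1)) ∧
    (∀ γ : ℝ, 0 < γ → γ ≤ 1 → ∃ k₀ : ℕ, ∀ k : ℕ, k₀ ≤ k → ∃ n₀ : ℕ, ∀ n : ℕ, n₀ ≤ n →
      ∃ (N : ℕ) (C : Fin N → EGate n N) (out : Fin N),
        (N : ℝ) ≤ 2 ^ ((n : ℝ) ^ (2 - γ)) ∧ ESound k C out ∧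
        ∀ G : SimpleGraph (Fin n), G.CliqueFree k →
          ∃ (T : ℕ) (P : Finset (Fin N)) (D : ℕ), EProof C G out T P D ∅ ∧
            (T : ℝ) ≤ (n : ℝ) ^ (γ * k) ∧ (P.card : ℝ) ≤ (n : ℝ) ^ (γ * k) ∧
            (D : ℝ) ≤ γ * k * Real.logb 2 n) ∧
    (∃ B : ℕ, ∀ u k n s e N : ℕ, 2 ≤ u → u ≤ k → n ≤ 2 ^ s → N ≤ 2 ^ s →
      ∀ C : Fin N → EGate n N,
        ∃ (G : SimpleGraph (Fin n)) (c : Fin n → Fin (u - 1)),
          (∀ a b, G.Adj a b ↔ c a ≠ c b) ∧ ∀ out : Fin N, ESound k C out →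
          ∀ (T : ℕ) (P : Finset (Fin N)) (D : ℕ) (E : Finset (Fin n × Fin n)),
            EProof C G out T P D E → E.card ≤ e →
            ((n : ℝ) / ((k : ℝ) ^ B * s * (e + 1))) ^ (u + 2) ≤ (T : ℝ) ^ 2) :=
  ⟨avg3 (cic2 pm2), eup cupd, eia⟩

end Pool.Agent.Results.MP_678664_lc.BoundedMemory
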