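import Pool.Agent.Lib.UNI.Main

/-!
# MP_678664_lc: constant depth circuits with big gates and guess bits for the clique problem

The circuits read a graph with `n` vertices and `q` guess bits. They have AND gates and OR gates of
any fan-in, NOT gates, arbitrary gates of fan-in at most `f`, and at most `q` big gates, anywhere
in the circuit. A big gate computes a sum over all sets of at most `D` gates which are true, of
real weights or of elements of a finite abelian group, and compares it with a number or asks
whether it is in a set `B`, where `B` or its complement has at most `2 ^ q` elements. So threshold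
gates, symmetric gates and MOD gates of any moduli are big gates. Finally there are `A` tests,
each consists of one equation in a finite abelian group and of `t` linear inequalities between
the values of such sums.

Suppose that a graph has no `k`-clique if and only if for some values of the guess bits at least
one of the tests is passed. Then the circuit has at least `n ^ (γ ⌈k / D⌉ - ε)` AND gates, OR
gates and gates of small fan-in. Here `(q + f + log n) ^ (d + 1) ≤ n ^ c`, where `d` is the depth
(big gates have depth `0`), `t ≤ n ^ (1 - γ + c)` and `A ≤ 2 ^ (n ^ (1 - γ + c))`.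

For `D = 2`, `γ = 1` the bound is `n ^ (⌈k / 2⌉ - ε)`. It holds for every depth up to
`c' log n / log log n`, for co-nondeterministic circuits, with `n ^ c'` big gates anywhere (for
constant depth). Before, for the clique problem, there were bounds for constant depth circuits
without big gates: `n ^ (k / 4)` (Rossman 2008).

The definitions are in `Pool/Agent/Lib/UNI/Defs.lean`.
-/

set_option autoImplicit false

namespace Pool.Agent.Results.MP_678664_lc.CircuitsWithBigGates

open CliqueUni

theorem result : ∀ k D : ℕ, 2 ≤ D → 2 * D < k → ∀ γ ε : ℝ, 0 < γ → γ ≤ 1 → 0 < ε →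
    ∃ c : ℝ, 0 < c ∧ ∃ n₀ : ℕ, ∀ n ≥ n₀, ∀ d f q s t A : ℕ,
      ((q : ℝ) + f + Real.log n) ^ (d + 1) ≤ (n : ℝ) ^ c →
      (t : ℝ) ≤ (n : ℝ) ^ (1 - γ + c) → (A : ℝ) ≤ 2 ^ ((n : ℝ) ^ (1 - γ + c)) →
      HasCert n k D d f q s t A →
        (n : ℝ) ^ (γ * ((k + D - 1) / D : ℕ) - ε) ≤ s :=
  fun _ _ hD hk _ _ hγ hγ1 hε => UniCore.main hD hk hγ hγ1 hε

end Pool.Agent.Results.MP_678664_lc.CircuitsWithBigGates
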