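import Pool.Agent.Lib.MP_678664_lc_MG.Main

/-!
# MP_678664_lc: circuits of arbitrary monotone gates and few other gates, for `k`-clique

For every `ε > 0` there are `c > 0` and `k₀` such that for all `k ≥ k₀` and all `n ≥ n₀(k)` the
following holds. If a randomized circuit of arbitrary monotone gates with at most `r` input wires
each (any number of such gates) and at most `t` other gates, computing arbitrary Boolean functions
and having at most `m` input wires altogether, where `(m + 1) * 2 ^ t * (r + 1) ≤ n ^ (2 - ε)`,
distinguishes with error at most `1 / 2 - ε` the graphs on `n` vertices with a `k`-clique from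
those without a clique of `(1 / 2 + ε) * k` vertices, then it has at least `n ^ (c * k)` gates.

Without other gates (`m = t = 0`) the monotone gates may have `n ^ (2 - ε) - 1` input wires, and
one monotone gate with `n * (n - 1) / 2` wires decides whether there is a `k`-clique. For AND and
OR gates of fan-in two and NOT gates (`r = 2`, `m = t`) the condition allows about
`(2 - 2 * ε) * log₂ n` NOT gates, and with `2 * log₂ n` NOT gates every circuit can be simulated
at polynomial cost (Markov, Fischer); one other gate with `m = n * (n - 1) / 2` wires is enough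
for any graph property. The definitions are in `Pool/Agent/Lib/MP_678664_lc_MG/Defs.lean`.
-/

set_option autoImplicit false

namespace Pool.Agent.Results.MP_678664_lc.MonotoneGates

open MonGates

theorem result : ∀ ε : ℝ, 0 < ε → ∃ c : ℝ, 0 < c ∧ ∃ k₀ : ℕ, ∀ k ≥ k₀, ∃ n₀ : ℕ, ∀ n ≥ n₀,
    ∀ s r t m k' : ℕ, ((m : ℝ) + 1) * 2 ^ t * (r + 1) ≤ (n : ℝ) ^ (2 - ε) →
      (1 / 2 + ε) * k ≤ k' → HasRandomCircuit n s r t m k k' ε → (n : ℝ) ^ (c * k) ≤ s :=
  main

end Pool.Agent.Results.MP_678664_lc.MonotoneGates
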