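import Pool.Agent.Lib.MP_678664_lc_RP.MainR

/-!
# Resolution and cutting planes refutations of the clique formula have size `n ^ Ω(k)`, with any
# constant gap

The proof refutes the formula's certificates by a lifting theorem for dags of number-in-hand
threshold conditions of `R` parties, with a random gadget for every pair of parties, over a
sparse expanding system of parity constraints that is far from satisfiable. Two parties can never
both hold many positions of a clique, so every graph constructed has no clique on more than about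
`1 / R` of the positions.
-/

open Finset Filter Topology CliqueGap

namespace Pool.Agent.Results.MP_678664_lc.ResolutionCuttingPlanes

/-- For every `R ≥ 2` and `ε > 0` there are `c > 0` and `C, k₀` such that for all `k ≥ k₀` and all
`n ≥ k ^ (C k)` there is a graph `G` on `n` vertices without clique of size `(1 / R + ε) k` all of
whose refutations of the `k`-clique formula, in resolution, in semantic cutting planes (for every
encoding of the vertices) with axioms of locality `c k`, and in the latter system with lines that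
are sums of `R` functions (with respect to one suitable partition of the positions into `R` almost
equal parts), have at least `n ^ (c k)` lines; hence, for every `ε > 0`, no bound `f k * n ^ g k`
with `g k / k → 0` is possible for the graphs without clique of size `ε k`. -/
theorem result :
    (∀ R : ℕ, 2 ≤ R → ∀ ε : ℝ, 0 < ε →
      ∃ c : ℝ, 0 < c ∧ ∃ C k₀ : ℕ, ∀ k ≥ k₀, ∀ n : ℕ, k ^ (C * k) ≤ n →
      ∃ G : SimpleGraph (Fin n), (∀ m : ℕ, (1 / R + ε) * k ≤ m → G.CliqueFree m) ∧
        (∀ s : ℕ, Nonempty (ResRefutation G k s) → (n : ℝ) ^ (c * k) ≤ s) ∧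
        (∀ (B : ℕ) (enc : Fin n → Fin B → Bool) (t s : ℕ), (t : ℝ) ≤ c * k →
          Nonempty (Refutation G enc k t s) → (n : ℝ) ^ (c * k) ≤ s) ∧
        (∃ κ : Fin k → Fin R, (∀ a, k / R ≤ (univ.filter fun i => κ i = a).card ∧
          (univ.filter fun i => κ i = a).card ≤ k / R + 1) ∧
          ∀ t s : ℕ, (t : ℝ) ≤ c * k → Nonempty (PartRefutation G κ t s) →
            (n : ℝ) ^ (c * k) ≤ s)) ∧
    (∀ ε : ℝ, 0 < ε → ∀ f g : ℕ → ℝ, Tendsto (fun k : ℕ => g k / k) atTop (𝓝 0) →
      ∀ᶠ k : ℕ in atTop, ∀ᶠ n : ℕ in atTop,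
        ∃ G : SimpleGraph (Fin n), (∀ m : ℕ, ε * k ≤ m → G.CliqueFree m) ∧
          (∀ s : ℕ, Nonempty (ResRefutation G k s) → f k * (n : ℝ) ^ (g k) < s) ∧
          (∀ (B : ℕ) (enc : Fin n → Fin B → Bool) (s : ℕ), Nonempty (Refutation G enc k 2 s) →
            f k * (n : ℝ) ^ (g k) < s)) := by
  refine ⟨fun R hR ε hε => CliqueRP.main_parts R hR ε hε, ?_⟩
  intro ε hε f g hg
  obtain ⟨R₀, hR₀⟩ := exists_nat_ge (2 / ε)
  have hRR : (2 / ε : ℝ) ≤ ((R₀ + 2 : ℕ) : ℝ) := by push_cast; linarith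
  obtain ⟨c, hc, C, k₀, h⟩ := CliqueRP.main_parts (R₀ + 2) (by omega) (ε / 2) (by positivity)
  have hRε : 1 / ((R₀ + 2 : ℕ) : ℝ) + ε / 2 ≤ ε := by
    have hpos : (0 : ℝ) < ((R₀ + 2 : ℕ) : ℝ) := by positivity
    have h1 : 1 / ((R₀ + 2 : ℕ) : ℝ) ≤ ε / 2 := by
      rw [div_le_iff₀ hpos]
      rw [div_le_iff₀ hε] at hRR
      linarith
    linarith
  obtain ⟨k₁, hk₁⟩ := exists_nat_ge (2 / c)
  have hev : ∀ᶠ k : ℕ in atTop, g k / k < c / 2 := hg.eventually_lt_const (by positivity)
  filter_upwards [hev, eventually_ge_atTop (max (max k₀ k₁) 1)] with k hk hkge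
  have hk0 : k₀ ≤ k := (le_max_left _ _).trans ((le_max_left _ _).trans hkge)
  have hk1 : k₁ ≤ k := (le_max_right _ _).trans ((le_max_left _ _).trans hkge)
  have hkpos : 1 ≤ k := (le_max_right _ _).trans hkge
  have hkr : (0 : ℝ) < k := by exact_mod_cast hkpos
  have hgk : g k ≤ c * k / 2 := by
    rw [div_lt_iff₀ hkr] at hk
    linarith
  have h2 : (2 : ℝ) ≤ c * k := by
    have h1 : (k₁ : ℝ) ≤ k := by exact_mod_cast hk1
    have h3 : 2 / c ≤ k := hk₁.trans h1
    rw [div_le_iff₀ hc] at h3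
    linarith
  have hbig : Tendsto (fun n : ℕ => (n : ℝ) ^ (c * k / 2)) atTop atTop :=
    (tendsto_rpow_atTop (by positivity)).comp tendsto_natCast_atTop_atTop
  filter_upwards [hbig.eventually_gt_atTop (f k), eventually_ge_atTop (k ^ (C * k)),
    eventually_ge_atTop 1] with n hn1 hn2 hn3
  have hnr : (1 : ℝ) ≤ n := by exact_mod_cast hn3
  have hn0 : (0 : ℝ) < n := by linarith
  have hkey : f k * (n : ℝ) ^ (g k) < (n : ℝ) ^ (c * k) := by
    have e1 : (n : ℝ) ^ (c * k) = (n : ℝ) ^ (c * k / 2) * (n : ℝ) ^ (c * k / 2) := by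
      rw [← Real.rpow_add hn0]
      congr 1
      ring
    have e2 : (n : ℝ) ^ (g k) ≤ (n : ℝ) ^ (c * k / 2) :=
      Real.rpow_le_rpow_of_exponent_le hnr hgk
    have e3 : (0 : ℝ) < (n : ℝ) ^ (g k) := Real.rpow_pos_of_pos hn0 _
    have e4 : (0 : ℝ) < (n : ℝ) ^ (c * k / 2) := Real.rpow_pos_of_pos hn0 _
    rw [e1]
    calc f k * (n : ℝ) ^ (g k) < (n : ℝ) ^ (c * k / 2) * (n : ℝ) ^ (g k) :=
          mul_lt_mul_of_pos_right hn1 e3
      _ ≤ (n : ℝ) ^ (c * k / 2) * (n : ℝ) ^ (c * k / 2) :=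
          mul_le_mul_of_nonneg_left e2 e4.le
  obtain ⟨G, hG, hres, hcp, -⟩ := h k hk0 n hn2
  refine ⟨G, fun m hm => hG m (le_trans ?_ hm), fun s hs => hkey.trans_le (hres s hs),
    fun B enc s hs => hkey.trans_le ?_⟩
  · exact mul_le_mul_of_nonneg_right hRε hkr.le
  · exact hcp B enc 2 s (by exact_mod_cast h2) hs

end Pool.Agent.Results.MP_678664_lc.ResolutionCuttingPlanes
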